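import Mathlib
import Pool.Agent.Helper99.MS.Main

/-!
Large sums of the Moebius function in short intervals, unconditionally.
-/

namespace Pool.Agent.Results.MP_a499ba_nt.ShortIntervals

/-- For every `δ > 0` there are arbitrarily large `x` and `1 ≤ h ≤ x (log log log x)^3 / log log x`
with `|∑_{x < n ≤ x + h} μ(n)| > (1 - δ) √x`. -/
theorem result (δ : ℝ) (hδ : 0 < δ) (X : ℕ) :
    ∃ x h : ℕ, X ≤ x ∧ 1 ≤ h ∧
      (h : ℝ) ≤ (x : ℝ) * Real.log (Real.log (Real.log x)) ^ 3 / Real.log (Real.log x) ∧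
      (1 - δ) * √(x : ℝ) < |∑ n ∈ Finset.Ioc x (x + h), ((ArithmeticFunction.moebius n : ℤ) : ℝ)| :=
  Pool.Agent.Helper99.MS.short_intervals δ hδ X

end Pool.Agent.Results.MP_a499ba_nt.ShortIntervals
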